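import Mathlib

/-!
# Measures on ccc complete Boolean algebras from countably generated subalgebras

Let `B` be a ccc complete Boolean algebra all of whose countably generated complete subalgebras
admit a measure, and suppose that `B` carries a continuous outer measure. We prove that `B`
admits a measure.

Sketch of the argument.
* If a complete subalgebra `C` carries a measure `μ`, then the restriction of the continuous
  outer measure `m` to `C` is absolutely continuous with respect to `μ`.
* Hence for each `ε > 0` there is one `δ > 0` such that every finite `T ⊆ B` carries a normalised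
  function which is additive on `T` and is `≥ δ` on the members of `T` with `m ≥ ε` (otherwise
  collect countably many bad finite sets and look at the complete subalgebra they generate).
* Compactness gives a finitely additive probability on `B` which is `≥ δ` on `{m ≥ ε}`, and a
  countable convex combination of those is a strictly positive finitely additive `μ₀` on `B`.
* The countably additive part of `μ₀` is strictly positive because `m` is continuous.
-/

namespace Pool.Agent.Results.MP_2d6919_lc.ContinuousOuterMeasure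

open Set Filter Topology

universe u

/-- The countable chain condition: every family of pairwise disjoint nonzero elements is
countable. -/
def CountableChainCondition (B : Type u) [BooleanAlgebra B] : Prop :=
  ∀ S : Set B, (∀ a ∈ S, a ≠ ⊥) → (∀ a ∈ S, ∀ b ∈ S, a ≠ b → Disjoint a b) → S.Countable

/-- A measure on a Boolean algebra: a map to `[0, ∞)` which is strictly positive and countably
additive on pairwise disjoint sequences whose supremum exists. -/
structure IsMeasure {A : Type u} [BooleanAlgebra A] (μ : A → ℝ) : Prop where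
  nonneg : ∀ a, 0 ≤ μ a
  pos : ∀ a, a ≠ ⊥ → 0 < μ a
  countably_additive : ∀ (s : ℕ → A) (t : A), (∀ i j, i ≠ j → Disjoint (s i) (s j)) →
    IsLUB (range s) t → HasSum (fun n => μ (s n)) (μ t)

/-- A continuous outer measure on a Boolean algebra: zero exactly at `⊥`, monotone, subadditive
and tending to `0` along decreasing sequences with infimum `⊥`. -/
structure IsContinuousOuterMeasure {B : Type u} [BooleanAlgebra B] (m : B → ℝ) : Prop where
  nonneg : ∀ a, 0 ≤ m a
  map_bot : m ⊥ = 0
  pos : ∀ a, a ≠ ⊥ → 0 < m a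
  mono : ∀ a b, a ≤ b → m a ≤ m b
  sup_le : ∀ a b, m (a ⊔ b) ≤ m a + m b
  continuous : ∀ s : ℕ → B, (∀ n, s (n + 1) ≤ s n) → IsGLB (range s) ⊥ →
    Tendsto (fun n => m (s n)) atTop (𝓝 0)

/-- A complete subalgebra of a complete Boolean algebra: a Boolean subalgebra closed under all
suprema and infima taken in the big algebra. -/
def IsCompleteSubalgebra {B : Type u} [CompleteBooleanAlgebra B] (C : BooleanSubalgebra B) :
    Prop :=
  ∀ S : Set B, S ⊆ (C : Set B) → sSup S ∈ C ∧ sInf S ∈ C

/-- `C` is a countably generated complete subalgebra: it is the smallest complete subalgebra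
containing some countable set. -/
def IsCountablyGenerated {B : Type u} [CompleteBooleanAlgebra B] (C : BooleanSubalgebra B) :
    Prop :=
  ∃ S : Set B, S.Countable ∧
    IsLeast {D : BooleanSubalgebra B | IsCompleteSubalgebra D ∧ S ⊆ (D : Set B)} C

/-! ### Measures on Boolean algebras -/

section measure

variable {A : Type u} [BooleanAlgebra A] {μ : A → ℝ}

lemma IsMeasure.map_bot (h : IsMeasure μ) : μ ⊥ = 0 := by
  have h1 := h.countably_additive (fun _ => ⊥) ⊥ (fun i j _ => disjoint_bot_left)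
    (by
      constructor
      · rintro _ ⟨n, rfl⟩
        exact le_refl _
      · intro b _
        exact bot_le)
  have h2 := h1.summable.tendsto_atTop_zero
  exact tendsto_nhds_unique tendsto_const_nhds h2

lemma IsMeasure.map_sup (h : IsMeasure μ) {a b : A} (hab : Disjoint a b) :
    μ (a ⊔ b) = μ a + μ b := by
  have h1 := h.countably_additive (fun n => if n = 0 then a else if n = 1 then b else ⊥) (a ⊔ b)
    (by
      intro i j hij
      rcases i with _ | _ | i <;> rcases j with _ | _ | j <;>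
        simp_all [disjoint_comm])
    (by
      constructor
      · rintro _ ⟨n, rfl⟩
        rcases n with _ | _ | n <;> simp
      · intro c hc
        refine _root_.sup_le ?_ ?_
        · have := hc ⟨0, rfl⟩
          simpa using this
        · have := hc ⟨1, rfl⟩
          simpa using this)
  have h2 : HasSum (fun n : ℕ => μ (if n = 0 then a else if n = 1 then b else ⊥))
      (μ a + μ b) := by
    have h3 : HasSum (fun n : ℕ => μ (if n = 0 then a else if n = 1 then b else ⊥))
        (∑ n ∈ Finset.range 2, μ (if n = 0 then a else if n = 1 then b else ⊥)) :=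
      hasSum_sum_of_ne_finset_zero (by
        intro n hn
        have : ¬ n < 2 := by simpa using hn
        have h0 : n ≠ 0 := by omega
        have h1 : n ≠ 1 := by omega
        simp [h0, h1, h.map_bot])
    simpa [Finset.sum_range_succ] using h3
  exact h1.unique h2

lemma IsMeasure.mono (h : IsMeasure μ) {a b : A} (hab : a ≤ b) : μ a ≤ μ b := by
  have h1 : μ b = μ a + μ (b \ a) := by
    rw [← h.map_sup disjoint_sdiff_self_right, sup_sdiff_cancel_right hab]
  have := h.nonneg (b \ a)
  linarith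

/-- Countable subadditivity of a measure. -/
lemma IsMeasure.le_hasSum (h : IsMeasure μ) (f : ℕ → A) (t : A) (ht : IsLUB (range f) t)
    (g : ℕ → ℝ) (hg : ∀ n, μ (f n) ≤ g n) (S : ℝ) (hS : HasSum g S) : μ t ≤ S := by
  have hd : ∀ i j, i ≠ j → Disjoint (disjointed f i) (disjointed f j) := by
    intro i j hij
    exact disjoint_disjointed f hij
  have hl : IsLUB (range (disjointed f)) t := by
    constructor
    · rintro _ ⟨n, rfl⟩
      exact (disjointed_le f n).trans (ht.1 ⟨n, rfl⟩)
    · intro u hu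
      apply ht.2
      rintro _ ⟨n, rfl⟩
      have h1 : partialSups (disjointed f) n ≤ u :=
        partialSups_le _ _ _ fun j _ => hu ⟨j, rfl⟩
      rw [partialSups_disjointed] at h1
      exact (le_partialSups f n).trans h1
  have h1 := h.countably_additive _ _ hd hl
  exact hasSum_le (fun n => (h.mono (disjointed_le f n)).trans (hg n)) h1 hS

lemma isLUB_steps (s : ℕ → A) (hs : ∀ n, s (n + 1) ≤ s n) (hs0 : IsGLB (range s) ⊥) :
    IsLUB (range fun n => s n \ s (n + 1)) (s 0) := by
  have hanti : Antitone s := antitone_nat_of_succ_le hs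
  constructor
  · rintro _ ⟨n, rfl⟩
    exact sdiff_le.trans (hanti (Nat.zero_le n))
  · intro u hu
    have h1 : ∀ n, s 0 \ u ≤ s n := by
      intro n
      induction n with
      | zero => exact sdiff_le
      | succ n ih =>
        have h2 : s n \ s (n + 1) ≤ u := hu ⟨n, rfl⟩
        have h3 : s n ≤ u ⊔ s (n + 1) := by
          rw [sup_comm]
          exact sdiff_le_iff.1 h2
        have h4 : s 0 \ u ≤ (u ⊔ s (n + 1)) \ u :=
          le_sdiff.2 ⟨ih.trans h3, disjoint_sdiff_self_left⟩
        rw [sup_sdiff_left_self] at h4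
        exact h4.trans sdiff_le
    have h5 : s 0 \ u ≤ ⊥ := hs0.2 (by
      rintro _ ⟨n, rfl⟩
      exact h1 n)
    exact sdiff_eq_bot_iff.1 (le_bot_iff.1 h5)

/-- Sanity check: every measure is a continuous outer measure (so the extra hypothesis of the
question is necessary, and the definitions are consistent). -/
lemma IsMeasure.isContinuousOuterMeasure (h : IsMeasure μ) : IsContinuousOuterMeasure μ where
  nonneg := h.nonneg
  map_bot := h.map_bot
  pos := h.pos
  mono := fun _ _ hab => h.mono hab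
  sup_le := by
    intro a b
    have h1 : μ (a ⊔ b) = μ a + μ (b \ a) := by
      rw [← h.map_sup disjoint_sdiff_self_right, sup_sdiff_self_right]
    have h2 := h.mono (sdiff_le : b \ a ≤ b)
    linarith
  continuous := by
    intro s hs hs0
    have hanti : Antitone s := antitone_nat_of_succ_le hs
    have hd : ∀ i j, i ≠ j → Disjoint (s i \ s (i + 1)) (s j \ s (j + 1)) := by
      have key : ∀ i j, i < j → Disjoint (s i \ s (i + 1)) (s j \ s (j + 1)) := by
        intro i j hij
        exact (disjoint_sdiff_self_left.mono_right (hanti hij)).mono_right sdiff_le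
      intro i j hij
      rcases lt_or_gt_of_ne hij with h1 | h1
      · exact key i j h1
      · exact (key j i h1).symm
    have h1 := (h.countably_additive _ _ hd (isLUB_steps s hs hs0)).tendsto_sum_nat
    have h2 : ∀ n, μ (s n) = μ (s 0) - ∑ i ∈ Finset.range n, μ (s i \ s (i + 1)) := by
      intro n
      induction n with
      | zero => simp
      | succ n ih =>
        have h3 : μ (s n) = μ (s (n + 1)) + μ (s n \ s (n + 1)) := by
          rw [← h.map_sup disjoint_sdiff_self_right, sup_sdiff_cancel_right (hs n)]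
        rw [Finset.sum_range_succ]
        linarith
    have h4 := h1.const_sub (μ (s 0))
    rw [sub_self] at h4
    exact h4.congr fun n => (h2 n).symm

end measure

/-! ### Continuous outer measures -/

section outer

variable {B : Type u} [CompleteBooleanAlgebra B] {m : B → ℝ}

lemma le_add_sdiff (hm : IsContinuousOuterMeasure m) (a b : B) : m a ≤ m b + m (a \ b) := by
  refine (hm.mono _ _ ?_).trans (hm.sup_le _ _)
  rw [sup_sdiff_self_right]
  exact le_sup_right

lemma map_partialSups_le (hm : IsContinuousOuterMeasure m) (x : ℕ → B) (n : ℕ) :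
    m (partialSups x n) ≤ ∑ i ∈ Finset.range (n + 1), m (x i) := by
  induction n with
  | zero => simp
  | succ n ih =>
    rw [partialSups_add_one, Finset.sum_range_succ]
    exact (hm.sup_le _ _).trans (by linarith)

lemma sdiff_partialSups_isGLB (x : ℕ → B) :
    IsGLB (range fun n => (⨆ k, x k) \ partialSups x n) ⊥ := by
  constructor
  · rintro _ ⟨n, rfl⟩
    exact bot_le
  · intro c hc
    have h1 : ∀ n, c ≤ (⨆ k, x k) \ partialSups x n := fun n => hc ⟨n, rfl⟩
    have h2 : c ≤ ⨆ k, x k := (h1 0).trans sdiff_le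
    have h3 : ∀ k, Disjoint c (x k) := by
      intro k
      have := h1 k
      exact (disjoint_sdiff_self_left.mono_left this).mono_right (le_partialSups x k)
    have h4 : Disjoint c (⨆ k, x k) := disjoint_iSup_iff.2 h3
    exact (le_inf le_rfl le_rfl).trans (h4.mono_right h2).le_bot

lemma tendsto_sdiff_partialSups (hm : IsContinuousOuterMeasure m) (x : ℕ → B) :
    Tendsto (fun n => m ((⨆ k, x k) \ partialSups x n)) atTop (𝓝 0) := by
  refine hm.continuous _ (fun n => ?_) (sdiff_partialSups_isGLB x)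
  exact sdiff_le_sdiff_left ((partialSups_monotone x) (Nat.le_succ n))

/-- Countable subadditivity of a continuous outer measure. -/
lemma outer_le_hasSum (hm : IsContinuousOuterMeasure m) (x : ℕ → B) (g : ℕ → ℝ)
    (hg : ∀ n, m (x n) ≤ g n) (S : ℝ) (hS : HasSum g S) : m (⨆ k, x k) ≤ S := by
  have hg0 : ∀ n, 0 ≤ g n := fun n => (hm.nonneg _).trans (hg n)
  have h1 : ∀ n, m (⨆ k, x k) ≤ S + m ((⨆ k, x k) \ partialSups x n) := by
    intro n
    refine (le_add_sdiff hm _ (partialSups x n)).trans ?_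
    have h2 : m (partialSups x n) ≤ S := by
      refine (map_partialSups_le hm x n).trans ?_
      refine (Finset.sum_le_sum fun i _ => hg i).trans ?_
      exact sum_le_hasSum _ (fun i _ => hg0 i) hS
    linarith
  have h2 : Tendsto (fun n => S + m ((⨆ k, x k) \ partialSups x n)) atTop (𝓝 (S + 0)) :=
    tendsto_const_nhds.add (tendsto_sdiff_partialSups hm x)
  have := ge_of_tendsto' h2 h1
  simpa using this

end outer

/-! ### Absolute continuity on a complete subalgebra -/

section abscont

variable {B : Type u} [CompleteBooleanAlgebra B] {m : B → ℝ}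

/-- If the complete subalgebra `C` carries a measure `μ`, then `m` restricted to `C` is absolutely
continuous with respect to `μ`. -/
lemma exists_delta (hm : IsContinuousOuterMeasure m) (C : BooleanSubalgebra B)
    (hC : IsCompleteSubalgebra C) (μ : C → ℝ) (hμ : IsMeasure μ) (ε : ℝ) (hε : 0 < ε) :
    ∃ δ : ℝ, 0 < δ ∧ ∀ a : C, ε ≤ m (a : B) → δ ≤ μ a := by
  by_contra hcon
  push Not at hcon
  have h1 : ∀ k : ℕ, ∃ a : C, ε ≤ m (a : B) ∧ μ a < (1 / 2 : ℝ) ^ k := fun k =>
    hcon ((1 / 2 : ℝ) ^ k) (by positivity)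
  choose a ha hb using h1
  have hmem : ∀ n, (⨆ k, (a (n + k) : B)) ∈ C := by
    intro n
    refine (hC (range fun k => (a (n + k) : B)) ?_).1
    rintro _ ⟨k, rfl⟩
    exact (a (n + k)).2
  let β : ℕ → C := fun n => ⟨⨆ k, (a (n + k) : B), hmem n⟩
  have hβlub : ∀ n, IsLUB (range fun k => a (n + k)) (β n) := by
    intro n
    constructor
    · rintro _ ⟨k, rfl⟩
      change (a (n + k) : B) ≤ ⨆ k, (a (n + k) : B)
      exact le_iSup (fun k => (a (n + k) : B)) k
    · intro c hc
      change (⨆ k, (a (n + k) : B)) ≤ (c : B)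
      refine iSup_le fun k => ?_
      exact hc ⟨k, rfl⟩
  have hβμ : ∀ n, μ (β n) ≤ (1 / 2 : ℝ) ^ n * 2 := by
    intro n
    refine hμ.le_hasSum _ _ (hβlub n) (fun k => (1 / 2 : ℝ) ^ n * (1 / 2 : ℝ) ^ k) ?_ _ ?_
    · intro k
      have := (hb (n + k)).le
      rwa [pow_add] at this
    · exact hasSum_geometric_two.mul_left _
  have hbmem : (⨅ n, (β n : B)) ∈ C := by
    refine (hC (range fun n => (β n : B)) ?_).2
    rintro _ ⟨k, rfl⟩
    exact (β k).2
  let b : C := ⟨⨅ n, (β n : B), hbmem⟩
  have hb0 : b = ⊥ := by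
    by_contra hne
    have h2 := hμ.pos b hne
    have h3 : ∀ n, μ b ≤ (1 / 2 : ℝ) ^ n * 2 := by
      intro n
      refine (hμ.mono ?_).trans (hβμ n)
      change (⨅ n, (β n : B)) ≤ (β n : B)
      exact iInf_le _ n
    have h4 : Tendsto (fun n : ℕ => (1 / 2 : ℝ) ^ n * 2) atTop (𝓝 (0 * 2)) :=
      (tendsto_pow_atTop_nhds_zero_of_lt_one (by norm_num) (by norm_num)).mul_const 2
    have h5 := ge_of_tendsto' h4 h3
    linarith
  have hb0' : (⨅ n, (β n : B)) = ⊥ := congrArg (fun c : C => (c : B)) hb0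
  have h6 : Tendsto (fun n => m (β n : B)) atTop (𝓝 0) := by
    refine hm.continuous _ ?_ ?_
    · intro n
      change (⨆ k, (a (n + 1 + k) : B)) ≤ ⨆ k, (a (n + k) : B)
      refine iSup_le fun k => ?_
      have : n + 1 + k = n + (k + 1) := by omega
      rw [this]
      exact le_iSup (fun k => (a (n + k) : B)) (k + 1)
    · rw [← hb0']
      exact isGLB_iInf
  have h7 : ∀ n, ε ≤ m (β n : B) := by
    intro n
    refine (ha n).trans (hm.mono _ _ ?_)
    exact le_iSup (fun k => (a (n + k) : B)) 0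
  have h8 := ge_of_tendsto' h6 h7
  linarith

end abscont

/-! ### The complete subalgebra generated by a set -/

section generated

variable {B : Type u} [CompleteBooleanAlgebra B]

/-- The complete subalgebra generated by a set. -/
def generated (S : Set B) : BooleanSubalgebra B where
  carrier := {b | ∀ D : BooleanSubalgebra B, IsCompleteSubalgebra D → S ⊆ (D : Set B) → b ∈ D}
  supClosed' := by
    intro a ha b hb D hD hS
    exact D.sup_mem (ha D hD hS) (hb D hD hS)
  infClosed' := by
    intro a ha b hb D hD hS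
    exact D.inf_mem (ha D hD hS) (hb D hD hS)
  compl_mem' := by
    intro a ha D hD hS
    exact D.compl_mem (ha D hD hS)
  bot_mem' := by
    intro D hD hS
    exact D.bot_mem

lemma mem_generated {S : Set B} {b : B} : b ∈ generated S ↔
    ∀ D : BooleanSubalgebra B, IsCompleteSubalgebra D → S ⊆ (D : Set B) → b ∈ D := Iff.rfl

lemma subset_generated (S : Set B) : S ⊆ (generated S : Set B) := by
  intro b hb
  exact mem_generated.2 fun D _ hS => hS hb

lemma generated_complete (S : Set B) : IsCompleteSubalgebra (generated S) := by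
  intro T hT
  constructor
  · refine mem_generated.2 fun D hD hS => (hD T ?_).1
    intro t ht
    exact mem_generated.1 (hT ht) D hD hS
  · refine mem_generated.2 fun D hD hS => (hD T ?_).2
    intro t ht
    exact mem_generated.1 (hT ht) D hD hS

lemma generated_isLeast (S : Set B) :
    IsLeast {D : BooleanSubalgebra B | IsCompleteSubalgebra D ∧ S ⊆ (D : Set B)}
      (generated S) := by
  constructor
  · exact ⟨generated_complete S, subset_generated S⟩
  · rintro D ⟨hD, hS⟩ b hb
    exact mem_generated.1 hb D hD hS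

end generated

/-! ### Uniformity over finite sets -/

section uniform

variable {B : Type u} [CompleteBooleanAlgebra B] {m : B → ℝ}

/-- `ν` is a normalised function which is additive on `T` and `≥ δ` on `{a ∈ T | ε ≤ m a}`. -/
def Good (m : B → ℝ) (ε δ : ℝ) (T : Set B) (ν : B → ℝ) : Prop :=
  ν ⊤ = 1 ∧ (∀ a ∈ T, ∀ b ∈ T, Disjoint a b → ν (a ⊔ b) = ν a + ν b) ∧
    ∀ a ∈ T, ε ≤ m a → δ ≤ ν a

lemma Good.mono {ε δ : ℝ} {T T' : Set B} {ν : B → ℝ} (h : Good m ε δ T' ν) (hT : T ⊆ T') :
    Good m ε δ T ν :=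
  ⟨h.1, fun a ha b hb => h.2.1 a (hT ha) b (hT hb), fun a ha => h.2.2 a (hT ha)⟩

lemma exists_uniform [Nontrivial B] (hm : IsContinuousOuterMeasure m)
    (hsub : ∀ C : BooleanSubalgebra B, IsCountablyGenerated C → ∃ μ : C → ℝ, IsMeasure μ)
    (ε : ℝ) (hε : 0 < ε) :
    ∃ δ : ℝ, 0 < δ ∧ ∀ T : Finset B, ∃ ν : B → ℝ, (∀ b, ν b ∈ Icc (0 : ℝ) 1) ∧
      Good m ε δ (T : Set B) ν := by
  classical
  by_contra hcon
  push Not at hcon
  have h1 : ∀ k : ℕ, ∃ T : Finset B, ∀ ν : B → ℝ, (∀ b, ν b ∈ Icc (0 : ℝ) 1) →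
      ¬ Good m ε (1 / ((k : ℝ) + 1)) (T : Set B) ν := fun k =>
    hcon (1 / ((k : ℝ) + 1)) (by positivity)
  choose T hT using h1
  set S : Set B := ⋃ k, (T k : Set B) with hS
  have hScount : S.Countable := countable_iUnion fun k => (T k).countable_toSet
  set C := generated S with hCdef
  have hCgen : IsCountablyGenerated C := ⟨S, hScount, generated_isLeast S⟩
  obtain ⟨μ, hμ⟩ := hsub C hCgen
  obtain ⟨δ, hδ, hδ'⟩ := exists_delta hm C (generated_complete S) μ hμ ε hε
  have hM : 0 < μ ⊤ := by
    refine hμ.pos ⊤ ?_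
    intro h
    have : ((⊤ : C) : B) = ((⊥ : C) : B) := by rw [h]
    exact top_ne_bot this
  obtain ⟨k, hk⟩ := exists_nat_one_div_lt (div_pos hδ hM)
  let ν : B → ℝ := fun b => if h : b ∈ C then μ ⟨b, h⟩ / μ ⊤ else 0
  refine hT k ν ?_ ⟨?_, ?_, ?_⟩
  · intro b
    by_cases h : b ∈ C
    · have hν : ν b = μ ⟨b, h⟩ / μ ⊤ := dif_pos h
      rw [hν]
      constructor
      · exact div_nonneg (hμ.nonneg _) hM.le
      · rw [div_le_one hM]
        exact hμ.mono le_top
    · have hν : ν b = 0 := dif_neg h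
      rw [hν]
      simp
  · have hν : ν ⊤ = μ ⟨⊤, C.top_mem⟩ / μ ⊤ := dif_pos C.top_mem
    rw [hν]
    exact div_self hM.ne'
  · intro a ha b hb hab
    have ha' : a ∈ C := subset_generated S (mem_iUnion.2 ⟨k, ha⟩)
    have hb' : b ∈ C := subset_generated S (mem_iUnion.2 ⟨k, hb⟩)
    have h1 : ν (a ⊔ b) = μ ⟨a ⊔ b, C.sup_mem ha' hb'⟩ / μ ⊤ := dif_pos (C.sup_mem ha' hb')
    have h2 : ν a = μ ⟨a, ha'⟩ / μ ⊤ := dif_pos ha'
    have h3 : ν b = μ ⟨b, hb'⟩ / μ ⊤ := dif_pos hb'
    rw [h1, h2, h3, ← add_div]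
    congr 1
    have hd : Disjoint (⟨a, ha'⟩ : C) ⟨b, hb'⟩ := by
      rw [disjoint_iff]
      apply Subtype.ext
      change a ⊓ b = ⊥
      exact disjoint_iff.1 hab
    exact hμ.map_sup hd
  · intro a ha hma
    have ha' : a ∈ C := subset_generated S (mem_iUnion.2 ⟨k, ha⟩)
    have h2 : ν a = μ ⟨a, ha'⟩ / μ ⊤ := dif_pos ha'
    rw [h2]
    refine hk.le.trans ?_
    exact div_le_div_of_nonneg_right (hδ' ⟨a, ha'⟩ hma) hM.le

/-- Compactness: a finitely additive probability on `B` bounded below on `{m ≥ ε}`. -/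
lemma exists_finitely_additive [Nontrivial B] (hm : IsContinuousOuterMeasure m)
    (hsub : ∀ C : BooleanSubalgebra B, IsCountablyGenerated C → ∃ μ : C → ℝ, IsMeasure μ)
    (ε : ℝ) (hε : 0 < ε) :
    ∃ δ : ℝ, 0 < δ ∧ ∃ ν : B → ℝ, (∀ b, ν b ∈ Icc (0 : ℝ) 1) ∧ Good m ε δ univ ν := by
  classical
  obtain ⟨δ, hδ, h⟩ := exists_uniform hm hsub ε hε
  refine ⟨δ, hδ, ?_⟩
  have hK : IsCompact (Set.pi univ (fun _ : B => Icc (0 : ℝ) 1)) :=
    isCompact_univ_pi fun _ => isCompact_Icc
  have hclosed : ∀ T : Finset B, IsClosed {ν : B → ℝ | Good m ε δ (T : Set B) ν} := by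
    intro T
    have h1 : {ν : B → ℝ | Good m ε δ (T : Set B) ν} =
        {ν : B → ℝ | ν ⊤ = 1} ∩
        ((⋂ a ∈ (T : Set B), ⋂ b ∈ (T : Set B), ⋂ _ : Disjoint a b,
          {ν : B → ℝ | ν (a ⊔ b) = ν a + ν b}) ∩
        (⋂ a ∈ (T : Set B), ⋂ _ : ε ≤ m a, {ν : B → ℝ | δ ≤ ν a})) := by
      ext ν
      simp [Good]
    rw [h1]
    refine IsClosed.inter ?_ (IsClosed.inter ?_ ?_)
    · exact isClosed_eq (continuous_apply _) continuous_const
    · refine isClosed_biInter fun a _ => isClosed_biInter fun b _ => isClosed_iInter fun _ => ?_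
      exact isClosed_eq (continuous_apply _) (by fun_prop)
    · refine isClosed_biInter fun a _ => isClosed_iInter fun _ => ?_
      exact isClosed_le continuous_const (continuous_apply _)
  have hne := hK.inter_iInter_nonempty
    (fun T : Finset B => {ν : B → ℝ | Good m ε δ (T : Set B) ν}) hclosed (by
      intro U
      obtain ⟨ν, hν, hν'⟩ := h (U.biUnion id)
      refine ⟨ν, fun b _ => hν b, ?_⟩
      simp only [mem_iInter]
      intro T hT
      refine hν'.mono ?_
      intro b hb
      simp only [Finset.coe_biUnion, id, mem_iUnion]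
      exact ⟨T, hT, hb⟩)
  obtain ⟨ν, hν, hν'⟩ := hne
  simp only [mem_iInter, mem_ofPred_eq] at hν'
  refine ⟨ν, fun b => hν b (mem_univ b), (hν' ∅).1, ?_, ?_⟩
  · intro a _ b _ hab
    exact (hν' {a, b}).2.1 a (by simp) b (by simp) hab
  · intro a _ hma
    exact (hν' {a}).2.2 a (by simp) hma

/-- A strictly positive finitely additive measure on `B`. -/
lemma exists_strictly_positive [Nontrivial B] (hm : IsContinuousOuterMeasure m)
    (hsub : ∀ C : BooleanSubalgebra B, IsCountablyGenerated C → ∃ μ : C → ℝ, IsMeasure μ) :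
    ∃ ν : B → ℝ, (∀ b, 0 ≤ ν b) ∧ (∀ b, b ≠ ⊥ → 0 < ν b) ∧
      ∀ a b, Disjoint a b → ν (a ⊔ b) = ν a + ν b := by
  have h1 : ∀ j : ℕ, ∃ δ : ℝ, 0 < δ ∧ ∃ ν : B → ℝ, (∀ b, ν b ∈ Icc (0 : ℝ) 1) ∧
      Good m (1 / ((j : ℝ) + 1)) δ univ ν := fun j =>
    exists_finitely_additive hm hsub _ (by positivity)
  choose δ hδ ν hν hgood using h1
  have hsum : ∀ b, Summable fun j : ℕ => (1 / 2 : ℝ) ^ j * ν j b := by
    intro b
    refine Summable.of_nonneg_of_le (fun j => ?_) (fun j => ?_) summable_geometric_two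
    · exact mul_nonneg (by positivity) (hν j b).1
    · exact mul_le_of_le_one_right (by positivity) (hν j b).2
  refine ⟨fun b => ∑' j : ℕ, (1 / 2 : ℝ) ^ j * ν j b, ?_, ?_, ?_⟩
  · intro b
    exact tsum_nonneg fun j => mul_nonneg (by positivity) (hν j b).1
  · intro b hb
    obtain ⟨j, hj⟩ := exists_nat_one_div_lt (hm.pos b hb)
    have h2 : δ j ≤ ν j b := (hgood j).2.2 b (mem_univ b) hj.le
    have h3 : (1 / 2 : ℝ) ^ j * ν j b ≤ ∑' j : ℕ, (1 / 2 : ℝ) ^ j * ν j b :=
      (hsum b).le_tsum j fun i _ => mul_nonneg (by positivity) (hν i b).1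
    have h4 : 0 < (1 / 2 : ℝ) ^ j * ν j b := mul_pos (by positivity) ((hδ j).trans_le h2)
    exact h4.trans_le h3
  · intro a b hab
    rw [← (hsum a).tsum_add (hsum b)]
    refine tsum_congr fun j => ?_
    rw [(hgood j).2.1 a (mem_univ a) b (mem_univ b) hab]
    ring

end uniform

/-! ### The countably additive part -/

section part

variable {B : Type u} [CompleteBooleanAlgebra B] {m ν : B → ℝ}

/-- Countable partitions of `a`. -/
def Part (a : B) : Type u :=
  {s : ℕ → B // (∀ i j, i ≠ j → Disjoint (s i) (s j)) ∧ ⨆ n, s n = a}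

instance (a : B) : Nonempty (Part a) := by
  refine ⟨⟨fun n => if n = 0 then a else ⊥, ?_, ?_⟩⟩
  · intro i j hij
    by_cases hi : i = 0
    · have hj : j ≠ 0 := by omega
      simp [hj]
    · simp [hi]
  · apply le_antisymm
    · refine iSup_le fun n => ?_
      by_cases hn : n = 0 <;> simp [hn]
    · have := le_iSup (fun n => if n = 0 then a else (⊥ : B)) 0
      simpa using this

/-- Nonnegative finitely additive functions. -/
structure FinAdd (ν : B → ℝ) : Prop where
  nonneg : ∀ b, 0 ≤ ν b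
  add : ∀ a b, Disjoint a b → ν (a ⊔ b) = ν a + ν b

lemma FinAdd.mono (h : FinAdd ν) {a b : B} (hab : a ≤ b) : ν a ≤ ν b := by
  have h1 : ν b = ν a + ν (b \ a) := by
    rw [← h.add _ _ disjoint_sdiff_self_right, sup_sdiff_cancel_right hab]
  have := h.nonneg (b \ a)
  linarith

lemma FinAdd.map_bot (h : FinAdd ν) : ν ⊥ = 0 := by
  have := h.add ⊥ ⊥ disjoint_bot_left
  simp at this
  exact this

lemma FinAdd.sum_range (h : FinAdd ν) (s : ℕ → B) (hs : ∀ i j, i ≠ j → Disjoint (s i) (s j))
    (n : ℕ) : ν (partialSups s n) = ∑ i ∈ Finset.range (n + 1), ν (s i) := by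
  induction n with
  | zero => simp
  | succ n ih =>
    rw [partialSups_add_one, Finset.sum_range_succ, ← ih]
    apply h.add
    have : Disjoint (partialSups s n) (s (n + 1)) := by
      rw [disjoint_partialSups_left]
      intro j hj
      exact hs _ _ (by omega)
    exact this

lemma FinAdd.sum_range_le (h : FinAdd ν) (s : ℕ → B) (hs : ∀ i j, i ≠ j → Disjoint (s i) (s j))
    (a : B) (ha : ∀ i, s i ≤ a) (n : ℕ) : ∑ i ∈ Finset.range n, ν (s i) ≤ ν a := by
  cases n with
  | zero => simpa using h.nonneg a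
  | succ n =>
    rw [← h.sum_range s hs]
    exact h.mono (partialSups_le _ _ _ fun j _ => ha j)

lemma FinAdd.summable (h : FinAdd ν) (s : ℕ → B) (hs : ∀ i j, i ≠ j → Disjoint (s i) (s j)) :
    Summable fun n => ν (s n) :=
  summable_of_sum_range_le (fun _ => h.nonneg _)
    (h.sum_range_le s hs ⊤ fun _ => le_top)

lemma FinAdd.tsum_le (h : FinAdd ν) (s : ℕ → B) (hs : ∀ i j, i ≠ j → Disjoint (s i) (s j))
    (a : B) (ha : ∀ i, s i ≤ a) : ∑' n, ν (s n) ≤ ν a :=
  Real.tsum_le_of_sum_range_le (fun _ => h.nonneg _) (h.sum_range_le s hs a ha)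

/-- The countably additive part of a finitely additive `ν`. -/
noncomputable def cPart (ν : B → ℝ) (a : B) : ℝ := ⨅ s : Part a, ∑' n, ν (s.1 n)

lemma cPart_bdd (h : FinAdd ν) (a : B) :
    BddBelow (range fun s : Part a => ∑' n, ν (s.1 n)) := by
  refine ⟨0, ?_⟩
  rintro _ ⟨s, rfl⟩
  exact tsum_nonneg fun n => h.nonneg _

lemma cPart_nonneg (h : FinAdd ν) (a : B) : 0 ≤ cPart ν a :=
  le_ciInf fun _ => tsum_nonneg fun _ => h.nonneg _

lemma cPart_le (h : FinAdd ν) (a : B) (s : Part a) : cPart ν a ≤ ∑' n, ν (s.1 n) :=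
  ciInf_le (cPart_bdd h a) s

lemma exists_part (a : B) (ε : ℝ) (hε : 0 < ε) :
    ∃ s : Part a, ∑' n, ν (s.1 n) < cPart ν a + ε :=
  exists_lt_of_ciInf_lt (by
    change cPart ν a < cPart ν a + ε
    linarith)

/-- Strict positivity of the countably additive part, using the continuous outer measure. -/
lemma cPart_pos (hm : IsContinuousOuterMeasure m) (h : FinAdd ν) (hpos : ∀ b, b ≠ ⊥ → 0 < ν b)
    (a : B) (ha : a ≠ ⊥) : 0 < cPart ν a := by
  rcases (cPart_nonneg h a).lt_or_eq with h0 | h0
  · exact h0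
  exfalso
  have hma := hm.pos a ha
  have h1 : ∀ k : ℕ, ∃ s : Part a, ∑' n, ν (s.1 n) < (1 / 2 : ℝ) ^ k := by
    intro k
    obtain ⟨s, hs⟩ := exists_part (ν := ν) a ((1 / 2 : ℝ) ^ k) (by positivity)
    exact ⟨s, by rwa [← h0, zero_add] at hs⟩
  choose s hs using h1
  have h2 : ∀ k : ℕ, ∃ N : ℕ, m (a \ partialSups (s k).1 N) < m a / 4 * (1 / 2 : ℝ) ^ k := by
    intro k
    have h3 := tendsto_sdiff_partialSups hm (s k).1
    rw [(s k).2.2] at h3
    have h4 : (0 : ℝ) < m a / 4 * (1 / 2 : ℝ) ^ k := by positivity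
    exact (h3.eventually_lt_const h4).exists
  choose N hN using h2
  set c : ℕ → B := fun k => partialSups (s k).1 (N k) with hc
  have hνc : ∀ k, ν (c k) ≤ (1 / 2 : ℝ) ^ k := by
    intro k
    have h3 : ν (c k) = ∑ i ∈ Finset.range (N k + 1), ν ((s k).1 i) :=
      h.sum_range _ (s k).2.1 _
    rw [h3]
    refine le_trans ?_ (hs k).le
    exact (h.summable _ (s k).2.1).sum_le_tsum _ fun i _ => h.nonneg _
  set b : B := ⨅ k, c k with hb
  have hb0 : b = ⊥ := by
    by_contra hne
    have h3 := hpos b hne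
    have h4 : ∀ k : ℕ, ν b ≤ (1 / 2 : ℝ) ^ k := fun k => (h.mono (iInf_le _ k)).trans (hνc k)
    have h5 : Tendsto (fun n : ℕ => (1 / 2 : ℝ) ^ n) atTop (𝓝 0) :=
      tendsto_pow_atTop_nhds_zero_of_lt_one (by norm_num) (by norm_num)
    have h6 := ge_of_tendsto' h5 h4
    linarith
  have h7 : a = ⨆ k, a \ c k := by
    have h8 : a \ ⨅ k, c k = ⨆ k, a \ c k := by
      rw [_root_.sdiff_eq, compl_iInf, inf_iSup_eq]
      simp only [_root_.sdiff_eq]
    rw [← h8, ← hb, hb0, sdiff_bot]
  have h9 : m (⨆ k, a \ c k) ≤ m a / 4 * 2 :=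
    outer_le_hasSum hm _ (fun k => m a / 4 * (1 / 2 : ℝ) ^ k) (fun k => (hN k).le) _
      (hasSum_geometric_two.mul_left _)
  rw [← h7] at h9
  linarith

lemma inf_disjoint {s : ℕ → B} (hs : ∀ i j, i ≠ j → Disjoint (s i) (s j)) (c : B) :
    ∀ i j, i ≠ j → Disjoint (s i ⊓ c) (s j ⊓ c) := fun i j hij =>
  (hs i j hij).mono inf_le_left inf_le_left

/-- Lower bound half of countable additivity. -/
lemma sum_cPart_le (h : FinAdd ν) (s : ℕ → B) (hs : ∀ i j, i ≠ j → Disjoint (s i) (s j))
    (t : B) (ht : ∀ n, s n ≤ t) (N : ℕ) :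
    ∑ n ∈ Finset.range N, cPart ν (s n) ≤ cPart ν t := by
  refine le_ciInf fun p => ?_
  have h1 : ∀ n, cPart ν (s n) ≤ ∑' i, ν (p.1 i ⊓ s n) := by
    intro n
    refine cPart_le h (s n) ⟨fun i => p.1 i ⊓ s n, inf_disjoint p.2.1 _, ?_⟩
    rw [← iSup_inf_eq, p.2.2]
    exact inf_eq_right.2 (ht n)
  calc ∑ n ∈ Finset.range N, cPart ν (s n)
      ≤ ∑ n ∈ Finset.range N, ∑' i, ν (p.1 i ⊓ s n) := Finset.sum_le_sum fun n _ => h1 n
    _ = ∑' i, ∑ n ∈ Finset.range N, ν (p.1 i ⊓ s n) := by
        rw [Summable.tsum_finsetSum]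
        intro n _
        exact h.summable _ (inf_disjoint p.2.1 _)
    _ ≤ ∑' i, ν (p.1 i) := by
        refine Summable.tsum_le_tsum ?_ ?_ (h.summable _ p.2.1)
        · intro i
          have h2 := h.sum_range_le (fun n => s n ⊓ p.1 i) (inf_disjoint hs _) (p.1 i)
            (fun n => inf_le_right) N
          simpa only [inf_comm] using h2
        · exact summable_sum fun n _ => h.summable _ (inf_disjoint p.2.1 _)

/-- Upper bound half of countable additivity. -/
lemma cPart_le_tsum (h : FinAdd ν) (s : ℕ → B) (hs : ∀ i j, i ≠ j → Disjoint (s i) (s j))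
    (t : B) (ht : ⨆ n, s n = t) (hsum : Summable fun n => cPart ν (s n)) :
    cPart ν t ≤ ∑' n, cPart ν (s n) := by
  refine le_of_forall_pos_le_add fun ε hε => ?_
  have h1 : ∀ n : ℕ, ∃ p : Part (s n), ∑' i, ν (p.1 i) < cPart ν (s n) + ε / 2 * (1 / 2 : ℝ) ^ n :=
    fun n => exists_part (s n) _ (by positivity)
  choose p hp using h1
  have hle : ∀ n i, (p n).1 i ≤ s n := by
    intro n i
    exact (le_iSup (p n).1 i).trans (p n).2.2.le
  let q : ℕ × ℕ → B := fun x => (p x.1).1 x.2
  have hq : ∀ x y, x ≠ y → Disjoint (q x) (q y) := by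
    rintro ⟨n, i⟩ ⟨n', i'⟩ hne
    by_cases hn : n = n'
    · subst hn
      have : i ≠ i' := by
        rintro rfl
        exact hne rfl
      exact (p n).2.1 _ _ this
    · exact (hs n n' hn).mono (hle n i) (hle n' i')
  let e : ℕ ≃ ℕ × ℕ := Nat.pairEquiv.symm
  have hr : ∀ i j, i ≠ j → Disjoint (q (e i)) (q (e j)) := fun i j hij =>
    hq _ _ fun h => hij (e.injective h)
  have hsup : ⨆ k, q (e k) = t := by
    rw [e.iSup_comp (g := q), iSup_prod, ← ht]
    exact iSup_congr fun n => (p n).2.2
  have h2 : cPart ν t ≤ ∑' k, ν (q (e k)) := cPart_le h t ⟨fun k => q (e k), hr, hsup⟩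
  have h3 : Summable fun k => ν (q (e k)) := h.summable _ hr
  have h4 : Summable fun x => ν (q x) := by
    rw [← e.summable_iff]
    exact h3
  have h5 : ∑' k, ν (q (e k)) = ∑' x, ν (q x) := e.tsum_eq (fun x => ν (q x))
  have h6 : ∑' x, ν (q x) = ∑' n, ∑' i, ν ((p n).1 i) := by
    rw [h4.tsum_prod' fun n => h.summable _ (p n).2.1]
  have h7 : HasSum (fun n => cPart ν (s n) + ε / 2 * (1 / 2 : ℝ) ^ n)
      (∑' n, cPart ν (s n) + ε / 2 * 2) :=
    hsum.hasSum.add (hasSum_geometric_two.mul_left _)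
  have h8 : ∑' n, ∑' i, ν ((p n).1 i) ≤ ∑' n, cPart ν (s n) + ε / 2 * 2 := by
    refine hasSum_le (fun n => (hp n).le) ?_ h7
    exact h4.prod.hasSum
  rw [h5, h6] at h2
  linarith

lemma cPart_isMeasure (hm : IsContinuousOuterMeasure m) (h : FinAdd ν)
    (hpos : ∀ b, b ≠ ⊥ → 0 < ν b) : IsMeasure (cPart ν) where
  nonneg := cPart_nonneg h
  pos := cPart_pos hm h hpos
  countably_additive := by
    intro s t hs ht
    have ht' : ⨆ n, s n = t := ht.iSup_eq
    have hle : ∀ n, s n ≤ t := fun n => ht.1 ⟨n, rfl⟩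
    have h1 := sum_cPart_le h s hs t hle
    have hsum : Summable fun n => cPart ν (s n) :=
      summable_of_sum_range_le (fun n => cPart_nonneg h _) h1
    have h2 : ∑' n, cPart ν (s n) ≤ cPart ν t :=
      Real.tsum_le_of_sum_range_le (fun n => cPart_nonneg h _) h1
    have h3 := cPart_le_tsum h s hs t ht' hsum
    rw [le_antisymm h3 h2]
    exact hsum.hasSum

end part

/-- Positive answer to Q1. -/
theorem result (B : Type u) [CompleteBooleanAlgebra B] (_hccc : CountableChainCondition B)
    (hsub : ∀ C : BooleanSubalgebra B, IsCountablyGenerated C → ∃ μ : C → ℝ, IsMeasure μ)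
    (houter : ∃ m : B → ℝ, IsContinuousOuterMeasure m) :
    ∃ μ : B → ℝ, IsMeasure μ := by
  obtain ⟨m, hm⟩ := houter
  rcases subsingleton_or_nontrivial B with hB | hB
  · refine ⟨fun _ => 0, fun _ => le_refl _, fun a ha => (ha (Subsingleton.elim _ _)).elim, ?_⟩
    intro s t _ _
    exact hasSum_zero
  · obtain ⟨ν, h0, h1, h2⟩ := exists_strictly_positive hm hsub
    exact ⟨cPart ν, cPart_isMeasure hm ⟨h0, h2⟩ h1⟩

end Pool.Agent.Results.MP_2d6919_lc.ContinuousOuterMeasure
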